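import Pool.Agent.Helper79.KW.Base
import Pool.Agent.Helper67.KW.MN1
import Pool.Agent.Helper97.KW.SE1

/-!
# Piece CO: from the distance estimate to KW-exactness
-/

open CategoryTheory Topology Filter
open scoped ENNReal

namespace Pool.Agent.KW

universe u v

namespace CO

variable {X : Type u} [Groupoid.{u} X] [TopologicalSpace X] [TopologicalSpace (Arr X)]

theorem famLE_add {A : GAlg.{u, v} X} {m m' : MatFam A} {ρ ρ' : ℝ} (h : FamLE m ρ)
    (h' : FamLE m' ρ') : FamLE (m + m') (ρ + ρ') := fun x F =>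
  (matNorm_add_le (fun i j : F => m x i j) (fun i j : F => m' x i j)).trans
    (add_le_add (h x F) (h' x F))

theorem famLE_sub {A : GAlg.{u, v} X} {m m' : MatFam A} {ρ ρ' : ℝ} (h : FamLE m ρ)
    (h' : FamLE m' ρ') : FamLE (m - m') (ρ + ρ') := fun x F =>
  (matNorm_sub_le (fun i j : F => m x i j) (fun i j : F => m' x i j)).trans
    (add_le_add (h x F) (h' x F))

theorem famLE_mono {A : GAlg.{u, v} X} {m : MatFam A} {ρ ρ' : ℝ} (h : FamLE m ρ)
    (hr : ρ ≤ ρ') : FamLE m ρ' := fun x F => (h x F).trans hr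

theorem famLE_zero {A : GAlg.{u, v} X} : FamLE (0 : MatFam A) 0 := fun x F => by
  have := matNorm_zero (n := F) (A := A.fib x)
  exact le_of_eq this

theorem famLE_neg {A : GAlg.{u, v} X} {m : MatFam A} {ρ : ℝ} (h : FamLE m ρ) :
    FamLE (-m) ρ := by
  have := famLE_sub (famLE_zero (A := A)) h
  simpa using this

theorem famLE_entry {A : GAlg.{u, v} X} {m : MatFam A} {ρ : ℝ} (h : FamLE m ρ) (x : X)
    (g k : Fibre x) : ‖m x g k‖ ≤ ρ := by
  classical
  have h1 := norm_entry_le_matNorm (fun i j : ({g, k} : Finset (Fibre x)) => m x i j)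
    ⟨g, by simp⟩ ⟨k, by simp⟩
  exact h1.trans (h x {g, k})

theorem famLE_map {A B : GAlg.{u, v} X} (φ : GHom A B) {m : MatFam A} {ρ : ℝ} (h : FamLE m ρ) :
    FamLE (φ.onCrossed m) ρ := fun x F =>
  (matNorm_map_le (φ.app x) (fun i j : F => m x i j)).trans (h x F)

theorem famLE_of_map {A B : GAlg.{u, v} X} (φ : GHom A B)
    (hφ : ∀ x, Function.Injective (φ.app x)) {m : MatFam A} {ρ : ℝ}
    (h : FamLE (φ.onCrossed m) ρ) : FamLE m ρ := fun x F => by
  have h1 := h x F
  rwa [show (fun i j : F => φ.onCrossed m x i j) = fun i j : F => φ.app x (m x i j) from rfl,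
    matNorm_map_of_injective (φ.app x) (hφ x) (fun i j : F => m x i j)] at h1

theorem onCrossed_add {A B : GAlg.{u, v} X} (φ : GHom A B) (m m' : MatFam A) :
    φ.onCrossed (m + m') = φ.onCrossed m + φ.onCrossed m' := by
  funext x g h
  exact map_add (φ.app x) _ _

theorem onCrossed_sub {A B : GAlg.{u, v} X} (φ : GHom A B) (m m' : MatFam A) :
    φ.onCrossed (m - m') = φ.onCrossed m - φ.onCrossed m' := by
  funext x g h
  exact map_sub (φ.app x) _ _

/-- the map on families as a linear map -/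
noncomputable def lin {A B : GAlg.{u, v} X} (φ : GHom A B) : MatFam A →ₗ[ℂ] MatFam B where
  toFun := φ.onCrossed
  map_add' := onCrossed_add φ
  map_smul' := fun c m => by
    funext x g h
    exact map_smul (φ.app x) c _

theorem onCrossed_genElem {A B : GAlg.{u, v} X} (φ : GHom A B) (η : Arr X → ℂ)
    (a : ∀ x, A.fib x) :
    φ.onCrossed (genElem A η a) = genElem B η (φ.onSec a) := by
  funext x g h
  show φ.app x (A.act (Groupoid.inv g.2) (η (quot g h) • a g.1)) =
    B.act (Groupoid.inv g.2) (η (quot g h) • φ.app g.1 (a g.1))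
  rw [φ.equivariant, map_smul]

theorem map_algCrossed {A B : GAlg.{u, v} X} (φ : GHom A B) (m : MatFam A)
    (hm : m ∈ algCrossed A) : φ.onCrossed m ∈ algCrossed B := by
  have h1 : algCrossed A ≤ (algCrossed B).comap (lin φ) := by
    rw [algCrossed, Submodule.span_le]
    rintro _ ⟨η, hη, a, ha, rfl⟩
    show φ.onCrossed (genElem A η a) ∈ algCrossed B
    rw [onCrossed_genElem]
    exact Submodule.subset_span ⟨η, hη, φ.onSec a, φ.map_sec a ha, rfl⟩
  exact h1 hm

theorem map_crossed {A B : GAlg.{u, v} X} (φ : GHom A B) :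
    Set.MapsTo φ.onCrossed (crossed A) (crossed B) := by
  intro m hm ε hε
  obtain ⟨z, hz, hmz⟩ := hm ε hε
  refine ⟨φ.onCrossed z, map_algCrossed φ z hz, ?_⟩
  rw [← onCrossed_sub]
  exact famLE_map φ hmz

theorem surj_algCrossed {A B : GAlg.{u, v} X} (φ : GHom A B)
    (hs : Set.SurjOn φ.onSec A.sec B.sec) (m : MatFam B) (hm : m ∈ algCrossed B) :
    ∃ f ∈ algCrossed A, φ.onCrossed f = m := by
  have h1 : algCrossed B ≤ (algCrossed A).map (lin φ) := by
    rw [algCrossed, Submodule.span_le]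
    rintro _ ⟨η, hη, b, hb, rfl⟩
    obtain ⟨a, ha, rfl⟩ := hs hb
    exact ⟨genElem A η a, Submodule.subset_span ⟨η, hη, a, ha, rfl⟩, onCrossed_genElem φ η a⟩
  obtain ⟨f, hf, hfm⟩ := h1 hm
  exact ⟨f, hf, hfm⟩

/-- limits: entrywise limits of families with controlled differences -/
theorem famLE_of_tendsto {A : GAlg.{u, v} X} (m : ℕ → MatFam A) (m' : MatFam A) (ρ : ℝ)
    (h : ∀ k, FamLE (m k) ρ)
    (hl : ∀ (x : X) (g h : Fibre x), Tendsto (fun k => m k x g h) atTop (𝓝 (m' x g h))) :
    FamLE m' ρ := by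
  intro x F
  have h1 : ∀ k, matNorm (fun i j : F => m' x i j) ≤
      (∑ i : F, ∑ j : F, ‖m' x i j - m k x i j‖) + ρ := by
    intro k
    have h2 := matNorm_add_le (fun i j : F => m' x i j - m k x i j) (fun i j : F => m k x i j)
    have h3 : (fun i j : F => (m' x i j - m k x i j) + m k x i j) = fun i j : F => m' x i j := by
      funext i j; abel
    rw [h3] at h2
    exact h2.trans (add_le_add (matNorm_le_sum _) (h k x F))
  have h4 : Tendsto (fun k => (∑ i : F, ∑ j : F, ‖m' x i j - m k x i j‖) + ρ) atTop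
      (𝓝 ((∑ i : F, ∑ j : F, (0 : ℝ)) + ρ)) := by
    refine Tendsto.add_const ρ (tendsto_finsetSum _ fun i _ => tendsto_finsetSum _ fun j _ => ?_)
    have h5 := (tendsto_const_nhds (x := m' x i j)).sub (hl x i j)
    rw [sub_self] at h5
    have h6 := h5.norm
    rwa [norm_zero] at h6
  simp only [Finset.sum_const_zero, zero_add] at h4
  exact ge_of_tendsto' h4 h1

/-- completeness: a sequence of families with summable differences has a limit -/
theorem exists_limit {A : GAlg.{u, v} X} (m : ℕ → MatFam A)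
    (h : ∀ k, FamLE (m (k + 1) - m k) ((1 / 2 : ℝ) ^ k)) :
    ∃ m' : MatFam A, (∀ (x : X) (g k : Fibre x),
      Tendsto (fun n => m n x g k) atTop (𝓝 (m' x g k))) ∧
      ∀ k, FamLE (m' - m k) (2 * (1 / 2 : ℝ) ^ k) := by
  have hc : ∀ (x : X) (g k : Fibre x), ∃ l, Tendsto (fun n => m n x g k) atTop (𝓝 l) := by
    intro x g k
    have h1 : CauchySeq (fun n => m n x g k) := by
      refine cauchySeq_of_le_geometric (1 / 2 : ℝ) 1 (by norm_num) (fun n => ?_)
      rw [dist_comm, dist_eq_norm, one_mul]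
      exact famLE_entry (h n) x g k
    exact cauchySeq_tendsto_of_complete h1
  choose l hl using hc
  refine ⟨l, hl, fun k => ?_⟩
  have h2 : ∀ n, FamLE (m (k + n) - m k) (2 * (1 / 2 : ℝ) ^ k) := by
    intro n
    have h3 : ∀ n, FamLE (m (k + n) - m k) (2 * (1 / 2 : ℝ) ^ k * (1 - (1 / 2 : ℝ) ^ n)) := by
      intro n
      induction n with
      | zero =>
        simpa using famLE_zero (A := A)
      | succ n ih =>
        have h4 := famLE_add (h (k + n)) ih
        have h5 : m (k + n + 1) - m (k + n) + (m (k + n) - m k) = m (k + (n + 1)) - m k := by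
          rw [show k + (n + 1) = k + n + 1 from rfl]; abel
        rw [h5] at h4
        refine famLE_mono h4 (le_of_eq ?_)
        rw [pow_add, pow_succ]
        ring
    refine famLE_mono (h3 n) ?_
    have h6 : 0 ≤ (1 / 2 : ℝ) ^ n := by positivity
    have h7 : 0 ≤ 2 * (1 / 2 : ℝ) ^ k := by positivity
    nlinarith
  refine famLE_of_tendsto (fun n => m (k + n) - m k) _ _ h2 (fun x g g' => ?_)
  have h8 : Tendsto (fun n => m (k + n) x g g') atTop (𝓝 (l x g g')) :=
    (hl x g g').comp (tendsto_add_atTop_nat k |>.congr fun n => by rw [add_comm])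
  exact h8.sub_const _

theorem mem_crossed_of_limit {A : GAlg.{u, v} X} (m : ℕ → MatFam A) (m' : MatFam A)
    (hm : ∀ k, m k ∈ algCrossed A) (h : ∀ k, FamLE (m' - m k) (2 * (1 / 2 : ℝ) ^ k)) :
    m' ∈ crossed A := by
  intro ε hε
  obtain ⟨k, hk⟩ := exists_pow_lt_of_lt_one (show (0 : ℝ) < ε / 2 by positivity)
    (show (1 / 2 : ℝ) < 1 by norm_num)
  exact ⟨m k, hm k, famLE_mono (h k) (by linarith)⟩

end CO

open CO

variable {X : Type u} [Groupoid.{u} X] [TopologicalSpace X] [TopologicalSpace (Arr X)]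

theorem kwExact_of_dist [EtaleGroupoid X]
    (h : ∀ (I A B : GAlg.{u, v} X) (ι : GHom I A) (π : GHom A B), GShortExact ι π →
      ∀ f ∈ algCrossed A, ∀ ρ > 0, FamLE (π.onCrossed f) ρ → ∀ δ > 0,
        ∃ z ∈ algCrossed I, FamLE (f - ι.onCrossed z) (ρ + δ)) : KWExact.{u, v} X := by
  intro I A B ι π he
  have hinj := fibre_inj ι π he
  have hcomp : ∀ w : MatFam I, π.onCrossed (ι.onCrossed w) = 0 := by
    intro w
    funext x g k
    exact (fibre_ker ι π he x _).2 ⟨w x g k, rfl⟩
  have hsurj : Set.SurjOn π.onSec A.sec B.sec := he.2.2.2.1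
  refine ⟨map_crossed ι, map_crossed π, ?_, ?_, ?_⟩
  · intro m _ m' _ hmm
    funext x g k
    exact hinj x (congrFun (congrFun (congrFun hmm x) g) k)
  · -- surjectivity
    intro m hm
    have hz : ∀ k : ℕ, ∃ z ∈ algCrossed B, FamLE (m - z) ((1 / 2 : ℝ) ^ (k + 3)) := fun k =>
      hm _ (by positivity)
    choose z hz hmz using hz
    -- one step
    have hstep : ∀ (k : ℕ) (f : MatFam A), f ∈ algCrossed A → π.onCrossed f = z k →
        ∃ f' ∈ algCrossed A, π.onCrossed f' = z (k + 1) ∧ FamLE (f' - f) ((1 / 2 : ℝ) ^ k) := by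
      intro k f hf hfk
      obtain ⟨a, ha, hak⟩ := surj_algCrossed π hsurj (z (k + 1) - z k)
        (Submodule.sub_mem _ (hz _) (hz _))
      have h1 : FamLE (z (k + 1) - z k) ((1 / 2 : ℝ) ^ (k + 3) + (1 / 2 : ℝ) ^ (k + 1 + 3)) := by
        have h2 := famLE_sub (hmz k) (hmz (k + 1))
        have h3 : m - z k - (m - z (k + 1)) = z (k + 1) - z k := by abel
        rwa [h3] at h2
      rw [← hak] at h1
      obtain ⟨w, hw, hfw⟩ := h I A B ι π he a ha _ (by positivity) h1 ((1 / 2 : ℝ) ^ (k + 3))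
        (by positivity)
      refine ⟨f + (a - ι.onCrossed w), Submodule.add_mem _ hf (Submodule.sub_mem _ ha
        (map_algCrossed ι w hw)), ?_, ?_⟩
      · rw [onCrossed_add, onCrossed_sub, hcomp, hfk, hak]
        abel
      · rw [add_sub_cancel_left]
        refine famLE_mono hfw ?_
        have h4 : (0 : ℝ) < (1 / 2 : ℝ) ^ k := by positivity
        rw [show k + 1 + 3 = k + 4 from rfl, pow_add _ k 3, pow_add _ k 4]
        nlinarith
    obtain ⟨f0, hf0, hf0z⟩ := surj_algCrossed π hsurj (z 0) (hz 0)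
    choose! nxt hn1 hn2 hn3 using hstep
    let fs : ℕ → MatFam A := fun k => Nat.rec f0 (fun k f => nxt k f) k
    have hfs : ∀ k, fs k ∈ algCrossed A ∧ π.onCrossed (fs k) = z k := by
      intro k
      induction k with
      | zero => exact ⟨hf0, hf0z⟩
      | succ k ih => exact ⟨hn1 k (fs k) ih.1 ih.2, hn2 k (fs k) ih.1 ih.2⟩
    obtain ⟨f, hft, hfl⟩ := exists_limit fs (fun k => hn3 k (fs k) (hfs k).1 (hfs k).2)
    refine ⟨f, mem_crossed_of_limit fs f (fun k => (hfs k).1) hfl, ?_⟩
    -- the image of `f` is `m`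
    funext x g g'
    have h5 : ∀ k : ℕ, ‖π.onCrossed f x g g' - m x g g'‖ ≤ 3 * (1 / 2 : ℝ) ^ k := by
      intro k
      have h6 := famLE_entry (famLE_map π (hfl k)) x g g'
      rw [onCrossed_sub, (hfs k).2] at h6
      have h7 := famLE_entry (hmz k) x g g'
      have h8 : π.onCrossed f x g g' - m x g g' =
          (π.onCrossed f - z k) x g g' - (m - z k) x g g' := by
        show _ = (π.onCrossed f x g g' - z k x g g') - (m x g g' - z k x g g')
        abel
      rw [h8]
      refine (norm_sub_le _ _).trans ?_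
      have h9 : (0 : ℝ) < (1 / 2 : ℝ) ^ k := by positivity
      have h10 : (1 / 2 : ℝ) ^ (k + 3) = (1 / 2 : ℝ) ^ k * (1 / 8) := by rw [pow_add]; norm_num
      rw [h10] at h7
      linarith
    have h11 : Tendsto (fun k : ℕ => 3 * (1 / 2 : ℝ) ^ k) atTop (𝓝 (3 * 0)) :=
      (tendsto_pow_atTop_nhds_zero_of_lt_one (by norm_num) (by norm_num)).const_mul 3
    rw [mul_zero] at h11
    have h12 : ‖π.onCrossed f x g g' - m x g g'‖ ≤ 0 := ge_of_tendsto' h11 h5
    exact sub_eq_zero.1 (norm_le_zero_iff.1 h12)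
  · intro m hm
    constructor
    · intro hm0
      have hw : ∀ k : ℕ, ∃ w ∈ algCrossed I, FamLE (m - ι.onCrossed w) ((1 / 2 : ℝ) ^ (k + 1)) := by
        intro k
        obtain ⟨f, hf, hmf⟩ := hm ((1 / 2 : ℝ) ^ (k + 3)) (by positivity)
        have h1 : FamLE (π.onCrossed f) ((1 / 2 : ℝ) ^ (k + 3)) := by
          have h2 := famLE_neg (famLE_map π hmf)
          have h3 : -π.onCrossed (m - f) = π.onCrossed f := by
            rw [onCrossed_sub, hm0, zero_sub, neg_neg]
          rwa [h3] at h2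
        obtain ⟨w, hw, hfw⟩ := h I A B ι π he f hf _ (by positivity) h1 ((1 / 2 : ℝ) ^ (k + 3))
          (by positivity)
        refine ⟨w, hw, ?_⟩
        have h4 := famLE_add hmf hfw
        rw [sub_add_sub_cancel] at h4
        refine famLE_mono h4 ?_
        have h5 : (0 : ℝ) < (1 / 2 : ℝ) ^ k := by positivity
        rw [pow_add _ k 3, pow_add _ k 1]
        nlinarith
      choose w hw hmw using hw
      have hd : ∀ k, FamLE (w (k + 1) - w k) ((1 / 2 : ℝ) ^ k) := by
        intro k
        refine famLE_of_map ι hinj ?_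
        have h6 := famLE_sub (hmw k) (hmw (k + 1))
        have h7 : m - ι.onCrossed (w k) - (m - ι.onCrossed (w (k + 1))) =
            ι.onCrossed (w (k + 1) - w k) := by
          rw [onCrossed_sub]; abel
        rw [h7] at h6
        refine famLE_mono h6 ?_
        have h5 : (0 : ℝ) < (1 / 2 : ℝ) ^ k := by positivity
        rw [show k + 1 + 1 = k + 2 from rfl, pow_add _ k 1, pow_add _ k 2]
        nlinarith
      obtain ⟨e, het, hel⟩ := exists_limit w hd
      refine ⟨e, mem_crossed_of_limit w e hw hel, ?_⟩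
      funext x g g'
      have h5 : ∀ k : ℕ, ‖ι.onCrossed e x g g' - m x g g'‖ ≤ 3 * (1 / 2 : ℝ) ^ k := by
        intro k
        have h6 := famLE_entry (famLE_map ι (hel k)) x g g'
        rw [onCrossed_sub] at h6
        have h7 := famLE_entry (hmw k) x g g'
        have h8 : ι.onCrossed e x g g' - m x g g' =
            (ι.onCrossed e - ι.onCrossed (w k)) x g g' - (m - ι.onCrossed (w k)) x g g' := by
          show _ = (ι.onCrossed e x g g' - ι.onCrossed (w k) x g g') -
            (m x g g' - ι.onCrossed (w k) x g g')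
          abel
        rw [h8]
        refine (norm_sub_le _ _).trans ?_
        have h9 : (0 : ℝ) < (1 / 2 : ℝ) ^ k := by positivity
        have h10 : (1 / 2 : ℝ) ^ (k + 1) = (1 / 2 : ℝ) ^ k * (1 / 2) := by
          rw [pow_add]; norm_num
        rw [h10] at h7
        linarith
      have h11 : Tendsto (fun k : ℕ => 3 * (1 / 2 : ℝ) ^ k) atTop (𝓝 (3 * 0)) :=
        (tendsto_pow_atTop_nhds_zero_of_lt_one (by norm_num) (by norm_num)).const_mul 3
      rw [mul_zero] at h11
      have h12 : ‖ι.onCrossed e x g g' - m x g g'‖ ≤ 0 := ge_of_tendsto' h11 h5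
      exact sub_eq_zero.1 (norm_le_zero_iff.1 h12)
    · rintro ⟨w, _, rfl⟩
      exact hcomp w

end Pool.Agent.KW
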